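import Pool.Agent.Helper53.FM.Defs
import Pool.Agent.Helper3.ThinRep

set_option autoImplicit false

/-!
# Project FM, piece B2: short windows of a world
-/

namespace Pool.Agent.Helper43.FM

open Finset
open Pool.Agent.Helper3.Thin (dig und off Lab GoodSet)
open Pool.Agent.Helper53.WR
open Pool.Agent.Helper48.FB (win crossF Cs WinLe Fs Dk LR zR dens)
open Pool.Agent.Helper53.FM

lemma und_div' {q : ℕ} [Fact q.Prime] (u z : ZMod q × ZMod q) :
    und u z / q ^ 2 = z.2.val + z.1.val * q := by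
  have hq : 0 < q := (Fact.out : q.Prime).pos
  have : NeZero q := ⟨hq.ne'⟩
  unfold und
  rw [Nat.add_mul_div_right _ _ (by positivity),
    Nat.div_eq_of_lt (Pool.Agent.Helper3.Thin.two_digits_lt (ZMod.val_lt u.2) (ZMod.val_lt u.1)),
    zero_add]

/-- Arithmetic core: `v < Q`, `b = v + o + Q * Z` in a window of length `h ≤ Q`. -/
lemma window_two' {Q d v o Z y h : ℕ} (hd : 0 < d) (hQ : 0 < Q) (hv : v < Q)
    (hh : h ≤ Q) (h1 : y ≤ v + o + Q * Z) (h2 : v + o + Q * Z < y + h) :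
    (Z = (y + (Q * o - o)) / Q - o ∧ ((y + (Q * o - o)) % Q) / d ≤ v / d ∧
        v / d < ((y + (Q * o - o)) % Q) / d + (h / d + 2)) ∨
      (Z = (y + (Q * o - o)) / Q + 1 - o ∧ 0 ≤ v / d ∧ v / d < 0 + (h / d + 2)) := by
  have ho : o ≤ Q * o := Nat.le_mul_of_pos_left _ hQ
  obtain ⟨E0, hE0⟩ : ∃ E0, Q * o = o + E0 := ⟨Q * o - o, by omega⟩
  have e1 : Q * o - o = E0 := by omega
  rw [e1]
  set r := (y + E0) % Q with hr
  have hrQ : r < Q := Nat.mod_lt _ hQ
  have hdiv : Q * ((y + E0) / Q) + r = y + E0 := Nat.div_add_mod _ _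
  set K := (y + E0) / Q with hK
  have g1 : Q * K + r ≤ v + Q * (Z + o) := by
    rw [hdiv, Nat.mul_add, hE0]; omega
  have g2 : v + Q * (Z + o) < Q * K + r + h := by
    rw [hdiv, Nat.mul_add, hE0]; omega
  have hr2 : r < d * (r / d + 1) := by
    rw [Nat.mul_add, mul_one]
    have := Nat.div_add_mod r d
    have := Nat.mod_lt r hd
    omega
  have hh2 : h < d * (h / d + 1) := by
    rw [Nat.mul_add, mul_one]
    have := Nat.div_add_mod h d
    have := Nat.mod_lt h hd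
    omega
  have hZ1 : K ≤ Z + o := by
    by_contra hc
    have : Z + o + 1 ≤ K := by omega
    have : Q * (Z + o + 1) ≤ Q * K := Nat.mul_le_mul_left _ this
    rw [Nat.mul_add, mul_one] at this
    omega
  have hZ2 : Z + o ≤ K + 1 := by
    by_contra hc
    have : K + 2 ≤ Z + o := by omega
    have : Q * (K + 2) ≤ Q * (Z + o) := Nat.mul_le_mul_left _ this
    rw [Nat.mul_add] at this
    omega
  rcases Nat.lt_or_ge K (Z + o) with hlt | hge
  · right
    have e : Z + o = K + 1 := by omega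
    rw [e, Nat.mul_add, mul_one] at g2
    have hvh : v < h := by omega
    refine ⟨by omega, Nat.zero_le _, ?_⟩
    have : v / d ≤ h / d := Nat.div_le_div_right hvh.le
    omega
  · left
    have e : Z + o = K := by omega
    rw [e] at g1 g2
    have hrv : r ≤ v := by omega
    have hvr : v < r + h := by omega
    refine ⟨by omega, Nat.div_le_div_right hrv, ?_⟩
    rw [Nat.div_lt_iff_lt_mul hd]
    have : d * (r / d + 1) + d * (h / d + 1) = (r / d + (h / d + 2)) * d := by ring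
    omega

/-- The two values of `Z` are at least `y / Q - 514`. -/
lemma le_window_Z {Q o y : ℕ} (hQ : 0 < Q) (ho : o ≤ 513 * Q) :
    y / Q ≤ (y + (Q * o - o)) / Q - o + 514 := by
  have ho' : o ≤ Q * o := Nat.le_mul_of_pos_left _ hQ
  have h1 : y / Q + o ≤ (y + (Q * o - o)) / Q + 514 := by
    have e : (y + (Q * o - o)) / Q + 514 = (y + (Q * o - o) + Q * 514) / Q := by
      rw [Nat.add_mul_div_left _ _ hQ]
    have e2 : y / Q + o = (y + Q * o) / Q := by
      rw [Nat.add_mul_div_left _ _ hQ]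
    rw [e, e2]
    apply Nat.div_le_div_right
    omega
  omega

lemma mem_win_world' {q : ℕ} {Γ : Finset (ZMod q × ZMod q)} {T : Finset ℕ}
    {S : ℕ} {τ : ZMod q × ZMod q → ZMod q × ZMod q}
    {σ : (ZMod q × ZMod q) × (ZMod q × ZMod q) → ℕ} {y h b : ℕ}
    (hb : b ∈ win (World Γ T S τ σ) y h) :
    ∃ (p : (ZMod q × ZMod q) × (ZMod q × ZMod q)) (ε : Lab) (t : ℕ),
      p ∈ Γ ×ˢ Γ ∧ t ∈ T ∧ elt S τ σ p ε t = b ∧ y ≤ b ∧ b < y + h := by
  have hb' := Finset.mem_filter.1 hb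
  have hb'' := Finset.mem_image.1 hb'.1
  exact hb''.elim fun w hw => ⟨w.1.1, w.1.2, w.2, (mem_product.1 (mem_product.1 hw.1).1).1,
    (mem_product.1 hw.1).2, hw.2, hb'.2.1, hb'.2.2⟩

set_option maxRecDepth 20000 in
/-- FM-B2 (short windows of a world). -/
theorem world_win_short {q : ℕ} [Fact q.Prime] (Γ : Finset (ZMod q × ZMod q)) (T : Finset ℕ)
    (S x L : ℕ) (V : ℕ → ℕ) (hV : Antitone V) (τ : ZMod q × ZMod q → ZMod q × ZMod q)
    (σ : (ZMod q × ZMod q) × (ZMod q × ZMod q) → ℕ) (hσ : ∀ p, σ p < S)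
    (hs : ∀ c m z : ℕ, 1 ≤ m → ((Γ ×ˢ Γ).filter (fun p =>
        (c ≤ (p.2 + τ p.1).2.val + (p.2 + τ p.1).1.val * q ∧
          (p.2 + τ p.1).2.val + (p.2 + τ p.1).1.val * q < c + m) ∧
            ∃ t ∈ T, S + σ p + t = z)).card * S ≤ 3 * (x * m * V (z + 1 - 2 * S)) + L * S)
    (y h : ℕ) (hh : h ≤ q ^ 4) :
    (win (World Γ T S τ σ) y h).card * S ≤
      4096 * (2 * (3 * (x * (h / q ^ 2 + 2) * V (y / q ^ 4 - 514 - 2 * S)) + L * S)) := by
  classical
  have hq : 0 < q := (Fact.out : q.Prime).pos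
  have hq4 : 0 < q ^ 4 := by positivity
  have hq2 : 0 < q ^ 2 := by positivity
  set m := h / q ^ 2 + 2 with hm
  have hm1 : 1 ≤ m := by rw [hm]; exact Nat.le_add_left _ _
  set hi : (ZMod q × ZMod q) × (ZMod q × ZMod q) → ℕ :=
    fun p => (p.2 + τ p.1).2.val + (p.2 + τ p.1).1.val * q with hhi
  set c : Lab → ℕ := fun ε => ((y + (q ^ 4 * off q ε - off q ε)) % q ^ 4) / q ^ 2 with hc
  set Z1 : Lab → ℕ := fun ε => (y + (q ^ 4 * off q ε - off q ε)) / q ^ 4 - off q ε with hZ1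
  set Z2 : Lab → ℕ := fun ε => (y + (q ^ 4 * off q ε - off q ε)) / q ^ 4 + 1 - off q ε with hZ2
  set F : Lab → Finset ((ZMod q × ZMod q) × (ZMod q × ZMod q)) := fun ε =>
    ((Γ ×ˢ Γ).filter (fun p => (c ε ≤ hi p ∧ hi p < c ε + m) ∧ ∃ t ∈ T, S + σ p + t = Z1 ε)) ∪
      ((Γ ×ˢ Γ).filter (fun p => (0 ≤ hi p ∧ hi p < 0 + m) ∧ ∃ t ∈ T, S + σ p + t = Z2 ε))
    with hF
  set g : Lab → ((ZMod q × ZMod q) × (ZMod q × ZMod q)) → ℕ := fun ε p =>
    y + (und p.1 (p.2 + τ p.1) + off q ε + (q ^ 4 * y - y)) % q ^ 4 with hg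
  have hsub : win (World Γ T S τ σ) y h ⊆
      (univ : Finset Lab).biUnion (fun ε => (F ε).image (g ε)) := by
    intro b hb
    obtain ⟨p, ε, t, hpΓ, htT, hpb, hb1, hb2⟩ := mem_win_world' hb
    unfold elt at hpb
    rw [mem_biUnion]
    refine ⟨ε, mem_univ _, ?_⟩
    rw [mem_image]
    have hv : und p.1 (p.2 + τ p.1) < q ^ 4 := Pool.Agent.Helper3.Thin.und_lt _ _
    refine ⟨p, ?_, ?_⟩
    · have key := window_two' (Q := q ^ 4) (d := q ^ 2) (v := und p.1 (p.2 + τ p.1))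
        (o := off q ε) (Z := S + σ p + t) (y := y) (h := h) hq2 hq4 hv hh
        (by rw [hpb]; exact hb1) (by rw [hpb]; exact hb2)
      rw [und_div'] at key
      rw [hF]
      simp only [mem_union, mem_filter]
      rcases key with k | k
      · exact Or.inl ⟨hpΓ, k.2, t, htT, k.1⟩
      · exact Or.inr ⟨hpΓ, k.2, t, htT, k.1⟩
    · rw [hg]
      simp only
      have hy : y ≤ q ^ 4 * y := Nat.le_mul_of_pos_left _ hq4
      have hby : b - y < q ^ 4 := by omega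
      have e1 : (und p.1 (p.2 + τ p.1) + off q ε + (q ^ 4 * y - y)) + q ^ 4 * (S + σ p + t)
          = (b - y) + q ^ 4 * y := by omega
      have e2 : (und p.1 (p.2 + τ p.1) + off q ε + (q ^ 4 * y - y)) % q ^ 4 = b - y := by
        rw [← Nat.add_mul_mod_self_left (und p.1 (p.2 + τ p.1) + off q ε + (q ^ 4 * y - y))
          (q ^ 4) (S + σ p + t), e1, Nat.add_mul_mod_self_left, Nat.mod_eq_of_lt hby]
      rw [e2]
      omega
  set B := 3 * (x * m * V (y / q ^ 4 - 514 - 2 * S)) + L * S with hB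
  have hcard : ∀ ε ∈ (univ : Finset Lab), ((F ε).image (g ε)).card * S ≤ 2 * B := by
    intro ε _
    have ho : off q ε ≤ 513 * q ^ 4 :=
      Pool.Agent.Helper3.Thin.off_le q (Fact.out : q.Prime).two_le ε
    have hz : y / q ^ 4 ≤ Z1 ε + 514 := le_window_Z hq4 ho
    have hz2 : Z1 ε ≤ Z2 ε := by
      rw [hZ1, hZ2]; simp only; omega
    have hv1 : V (Z1 ε + 1 - 2 * S) ≤ V (y / q ^ 4 - 514 - 2 * S) := hV (by omega)
    have hv2 : V (Z2 ε + 1 - 2 * S) ≤ V (y / q ^ 4 - 514 - 2 * S) := hV (by omega)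
    have a1 : ((Γ ×ˢ Γ).filter (fun p => (c ε ≤ hi p ∧ hi p < c ε + m) ∧
        ∃ t ∈ T, S + σ p + t = Z1 ε)).card * S ≤ 3 * (x * m * V (Z1 ε + 1 - 2 * S)) + L * S :=
      hs (c ε) m (Z1 ε) hm1
    have a2 : ((Γ ×ˢ Γ).filter (fun p => (0 ≤ hi p ∧ hi p < 0 + m) ∧
        ∃ t ∈ T, S + σ p + t = Z2 ε)).card * S ≤ 3 * (x * m * V (Z2 ε + 1 - 2 * S)) + L * S :=
      hs 0 m (Z2 ε) hm1
    have b1 : 3 * (x * m * V (Z1 ε + 1 - 2 * S)) + L * S ≤ B := by
      rw [hB]; gcongr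
    have b2 : 3 * (x * m * V (Z2 ε + 1 - 2 * S)) + L * S ≤ B := by
      rw [hB]; gcongr
    have hc1 : ((F ε).image (g ε)).card ≤
        ((Γ ×ˢ Γ).filter (fun p => (c ε ≤ hi p ∧ hi p < c ε + m) ∧
          ∃ t ∈ T, S + σ p + t = Z1 ε)).card +
        ((Γ ×ˢ Γ).filter (fun p => (0 ≤ hi p ∧ hi p < 0 + m) ∧
          ∃ t ∈ T, S + σ p + t = Z2 ε)).card :=
      card_image_le.trans (card_union_le _ _)
    calc ((F ε).image (g ε)).card * S ≤ _ * S := Nat.mul_le_mul_right _ hc1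
      _ ≤ B + B := by
        rw [Nat.add_mul]
        exact Nat.add_le_add (a1.trans b1) (a2.trans b2)
      _ = 2 * B := by ring
  calc (win (World Γ T S τ σ) y h).card * S
      ≤ ((univ : Finset Lab).biUnion (fun ε => (F ε).image (g ε))).card * S :=
        Nat.mul_le_mul_right _ (card_le_card hsub)
    _ ≤ (∑ ε : Lab, ((F ε).image (g ε)).card) * S := Nat.mul_le_mul_right _ card_biUnion_le
    _ = ∑ ε : Lab, ((F ε).image (g ε)).card * S := by rw [Finset.sum_mul]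
    _ ≤ ∑ _ε : Lab, 2 * B := Finset.sum_le_sum hcard
    _ = 4096 * (2 * B) := by
        rw [Finset.sum_const, card_univ, Pool.Agent.Helper3.Thin.card_Lab, smul_eq_mul]

end Pool.Agent.Helper43.FM
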